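import Pool.Agent.V8H50.AF.Main

/-!
# `A¹`-uniruledness and the logarithmic Kodaira dimension of varieties fibred in complements of
arrangements over an arbitrary base

Let `X` be an open variety with function field `K`; as in the starting repository it is given by the set
`Bd` of the places (prime divisors over `X`) without centre on `X`. Let `L ⊆ K` be a subfield, the
function field of a variety `Y` of dimension `p`, so that there is a dominant rational map `X ⇢ Y`.

* (the fibres, `ArrFib`) Geometrically, the generic fibre of `X ⇢ Y` has a finite étale cover which is a
  product `∏ j, (P^{r j} - ⋃ i, {A j i = 0})`, `r j ≥ 1`, of complements of arbitrary arrangements of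
  hyperplanes (of any number, in any position). The hyperplanes move with the point of `Y`, and the
  fibres may be twisted: `K'` is a finite extension of `K`, and the algebraic closure of `L` in `K'` may be
  larger than `L`. For instance the generic fibre may be a form over `L` of such a product, or the
  quotient by a finite group which acts freely on it; so `X ⇢ Y` may be any fibration in rational
  curves minus a multisection of any degree, or in torsors of tori.
* (the base, `BaseLe`) `B` is any function on the prime divisors `v` over `Y` with `B v ≤ 1` and
  `B v ≤ 1 - 1 / e` for all prime divisors over `X` which dominate `v`, with ramification index `e`. So `B`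
  may be the boundary divisor of the orbifold base of `X ⇢ Y`; also `B = 0` is allowed. There is no
  condition on the degenerate fibres, and they need not be in `X`.
* (the moduli part, `BaseGe`) `I` is a family of `M` tuples of bases of hyperplanes. The product of the
  determinants of the bases is a semi-invariant of the arrangements. Its order at a place over `v` is
  compared with the orders of the products for the other families `J` of bases with the same
  multiplicities: `g v` is at most the greatest difference, divided by `M` (`ModGe`). So `g` measures the
  variation of the arrangements; for four points on the line and `M = 2` it is given by the orders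
  of their cross-ratios. `g = 0` is always allowed.

**Theorem.** Suppose that the hyperplanes of some factor have a common point, or that
`κ (Y, K_Y + B + g) ≥ 0` for some `g` (for instance `κ (Y) ≥ 0`, or `κ (Y, K_Y + B) ≥ 0`). Then the
following are equivalent:

* `X` is `A¹`-uniruled;
* the logarithmic Kodaira dimension of `X` is `-∞`;
* the logarithmic canonical divisor of `X` is not pseudo-effective;
* the hyperplanes of some factor have a common point.

Moreover the logarithmic Kodaira dimension of `X` is at least `κ (Y, K_Y + B + g)`.

Proof: if `a` is a common point of the hyperplanes of the factor `j0` then the lines `x + s a`, `s ∈ A¹`,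
in this factor do not meet the hyperplanes; they are the orbits of the derivation `δ` of
`a1_nonspan`. If there are bases of hyperplanes then the products of their determinants and of
the logarithmic forms of the bases, multiplied by the pull-backs of the sections of the multiples
of `K_Y + B + g`, are logarithmic pluricanonical forms on `X`; this is the theorem `mod_one` of
`Pool.Agent.V8H50.MA.Main` for the weights given by the multiplicities of the hyperplanes in `I`.
-/

set_option autoImplicit false

open FF Pool.Agent.W602.GT Pool.Agent.Y191 Pool.Agent.V8H50.AF
open Pool.Agent.W619.PL (IsA1Uniruled)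

namespace Pool.Agent.Results.MP_410da7_ag.FibredArrangements

/-- If `κ (K_Y + B) ≥ a` and the hyperplanes of each factor have no common point then `BaseGe` holds
(with `g = 0`). -/
theorem base_of_nonneg {K K' : Type} [Field K] [Field K'] [Algebra ℂ K] [Algebra ℂ K']
    [Algebra K K'] [IsScalarTower ℂ K K'] [FiniteDimensional K K'] {c : ℕ} {r q : Fin c → ℕ}
    {L : IntermediateField ℂ K} {A : ∀ j, Fin (q j) → Fin (r j + 1) → K'} (hs : Spanning A)
    {p a : ℕ} {B : Place ℂ L → ℝ} (h : KodairaGe p Set.univ B a) : BaseGe L A p B a := by
  classical
  have h1 : ∀ j, ∃ I : Fin (r j + 1) → Fin (q j),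
      (Matrix.of fun k b => A j (I k) b).det ≠ 0 := by
    intro j
    obtain ⟨f, hf⟩ := Submodule.exists_fun_fin_finrank_span_eq K' (Set.range (A j))
    have h2 : Module.finrank K' (Submodule.span K' (Set.range (A j))) = r j + 1 := by
      rw [hs j, finrank_top, Module.finrank_fintype_fun_eq_card, Fintype.card_fin]
    have h3 : ∀ k : Fin (r j + 1), ∃ i, A j i = f (Fin.cast h2.symm k) := fun k => hf.1 _
    choose I hI using h3
    refine ⟨I, ?_⟩
    have h4 : LinearIndependent K' fun k => A j (I k) := by
      have h5 : (fun k => A j (I k)) = f ∘ Fin.cast h2.symm := funext hI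
      rw [h5]
      exact hf.2.2.comp _ (Fin.cast_injective _)
    intro h5
    exact (Matrix.linearIndependent_rows_iff_isUnit.1 h4 |> (Matrix.isUnit_iff_isUnit_det _).1).ne_zero
      h5
  choose I hI using h1
  refine ⟨1, fun _ => I, fun _ => 0, one_pos, fun _ => Finset.prod_ne_zero_iff.2 fun j _ => hI j,
    fun v _ Q e _ _ => ⟨fun _ => I, fun _ => Finset.prod_ne_zero_iff.2 fun j _ => hI j,
      fun _ _ => rfl, by simp⟩, by simpa using h⟩

/-- **Q1 for varieties fibred in complements of arrangements over an arbitrary base.** -/
theorem result (K K' : Type) [Field K] [Field K'] [Algebra ℂ K] [Algebra ℂ K'] [Algebra K K']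
    [IsScalarTower ℂ K K'] [FiniteDimensional K K'] [Algebra.EssFiniteType ℂ K]
    (c : ℕ) (r q : Fin c → ℕ) (p : ℕ) (hK : Algebra.trdeg ℂ K = (p + ∑ j, r j : ℕ))
    (L : IntermediateField ℂ K) (hL : Algebra.trdeg ℂ L = p) (Bd : Place ℂ K → Prop)
    (A : ∀ j, Fin (q j) → Fin (r j + 1) → K') (u : (Σ j, Fin (r j)) → K')
    (hF : ArrFib L Bd A u) (B : Place ℂ L → ℝ) (hB : BaseLe L Bd B) :
    ((Spanning A → KodairaGe p Set.univ B 0 ∨ BaseGe L A p B 0) →
      [IsA1Uniruled ℂ K (p + ∑ j, r j) Bd, ¬ KodGe ℂ K (p + ∑ j, r j) Bd 0,
        ¬ Psef ℂ K (p + ∑ j, r j) Bd, ¬ Spanning A].TFAE) ∧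
    ∀ a, BaseGe L A p B a → KodGe ℂ K (p + ∑ j, r j) Bd a :=
  ⟨fun hY => tfae ‹Algebra.EssFiniteType ℂ K› hL hK hF hB fun hs =>
      (hY hs).elim (base_of_nonneg hs) id,
    fun _ h => kod_of_base ‹Algebra.EssFiniteType ℂ K› hL hK hF hB h⟩

end Pool.Agent.Results.MP_410da7_ag.FibredArrangements
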