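import Pool.Agent.V8H92.TB.Main

/-!
# Logarithmic Kodaira dimension and `A¹`-uniruledness for varieties which contain the product of a
torus and a curve

Let `X` be any variety over an algebraically closed field `k` of characteristic zero which contains
an open subset isomorphic to `T × (C - B)`, where `T = (G_m) ^ n` is a torus, `C` a smooth projective
curve and `B` a finite set of points of `C`. Nothing else is assumed on `X`. It may be affine or
complete or neither, and no group acts on `X`. For example: all varieties with a torus action
with general orbits of codimension at most one, all partial compactifications of tori and of log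
Calabi-Yau varieties with a toric model (for example cluster varieties) or parts of blow-ups of
these.

In the function-field language of the starting repository: `K` is the function field of `X`, `Bd` is
the set of the places of `K` (the normalised discrete valuations, trivial on `k`) without centre on
`X`, `F` is the function field of `C`, and `K = F(t 1, …, t n)` with the coordinates `t i` of the
torus. The hypothesis `hopen` says that `X` contains `T × (C - B)`: the places at which all `t i`
are units and which do not lie over a point of `B` have a centre on `X`.

A place `v` of `K` is monomial (`MonoPl F t v`) if the order of a polynomial in the `t i` over `F`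
is the minimum of the orders of its terms. `mult t Bd c` is the smallest multiplicity over the point
`c` of `C` of the monomial places with a centre on `X`, and zero if there are none.

**Theorem.** The following are equivalent:

* the logarithmic Kodaira dimension of `X` is `-∞`;
* the logarithmic canonical divisor of `X` is not pseudo-effective;
* `X` is `A¹`-uniruled;
* either there is a monomial place with a centre on `X` which is trivial on `F` and at which one of
  the `t i` is not a unit, or `C` is the projective line and `∑ c, (1 - 1 / mult t Bd c) < 2`, where a
  point without monomial places over it counts `1`.

Proof. Let `ω` be a pluricanonical form on `C`. The form `ω (dt 1 / t 1 ∧ … ∧ dt n / t n) ^ m` is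
regular at every place `v` which is not monomial, even if its centre is in the boundary of `T × C`:
if `v` is not monomial then there is a polynomial relation between the `t i` modulo the maximal ideal
of `v`, and a relation with the smallest number of terms gives a linear relation between the
logarithmic differentials. So only the monomial places matter for the logarithmic Kodaira dimension.
The affine lines, which are constructed with the polynomials of Klein for the multiplicities
`(2,2,m)`, `(2,3,3)`, `(2,3,4)` and `(2,3,5)` and lifted to `K`, meet the complement of
`T × (C - B)` only in monomial divisors.
-/

open FF IntermediateField Pool.Agent.W602.GT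

namespace Pool.Agent.Results.MP_410da7_ag.OpenTorusTimesCurve

open Pool.Agent.V8H92.TB Pool.Agent.W619.PL

/-- **Q1 for the varieties which contain the product of a torus and a curve.** -/
theorem result {k K : Type} [Field k] [CharZero k] [IsAlgClosed k] [Field K] [Algebra k K]
    {F : IntermediateField k K} (hess : Algebra.EssFiniteType k F) (htr : Algebra.trdeg k F = 1)
    {n : ℕ} {t : Fin n → K} (ht : AlgebraicIndependent F t)
    (htop : IntermediateField.adjoin F (Set.range t) = ⊤)
    {Bd : Place k K → Prop} {B : Finset (Place k F)}
    (hopen : ∀ v : Place k K, (∀ i, v.ord (t i) = 0) → (∀ c ∈ B, ∀ e, ¬ Over v c e) → ¬ Bd v) :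
    [¬ KodGe k K (n + 1) Bd 0, ¬ Psef k K (n + 1) Bd, IsA1Uniruled k K (n + 1) Bd,
      (∃ v : Place k K, ¬ Bd v ∧ MonoPl F t v ∧ (∀ f : F, v.ord (f : K) = 0) ∧
        ∃ i, v.ord (t i) ≠ 0) ∨
        ((∃ x : F, k⟮x⟯ = ⊤) ∧ ∑ c ∈ B, (1 - 1 / (mult t Bd c : ℚ)) < 2)].TFAE := by
  have hF : IsFF k F := ⟨hess, htr⟩
  exact tfae ht htop hopen

end Pool.Agent.Results.MP_410da7_ag.OpenTorusTimesCurve
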