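import Pool.Agent.V8H92.TB.Main

/-!
# Logarithmic Kodaira dimension and `A¹`-uniruledness of torus fibrations

Let `X → Y` be a dominant morphism of varieties over an algebraically closed field `k` of
characteristic zero, where the logarithmic Kodaira dimension of `Y` is at least `0`, and suppose that
the generic fibre of `X → Y` contains a split torus `(G_m) ^ n`, of the dimension of the fibre, as an
open subset. Nothing else is assumed on `X`, and `Y` is any variety of any dimension. For example:
the partial compactifications of semi-abelian varieties, and of the total spaces of the direct sums
of line bundles on (an open subset of) any projective variety `Y` of Kodaira dimension at least `0`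
minus the coordinate hyperplane bundles.

In the function-field language of the starting repository: `K` is the function field of `X`, `Bd` is
the set of the places of `K` without centre on `X`, and `F ⊂ K` is the function field of `Y`, `BdF`
the set of the places of `F` without centre on `Y`. The hypothesis `hmor` says that `X → Y` is a
morphism: the restriction to `F` of a place with a centre on `X` has a centre on `Y`. `K = F(t 1, …, t n)`
with the coordinates `t i` of the torus, and `hgen` says that this torus over `F` is contained in the
generic fibre of `X`.

A place `v` of `K` is monomial (`MonoPl F t v`) if the order of a polynomial in the `t i` over `F`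
is the minimum of the orders of its terms.

**Theorem.** The following are equivalent:

* the logarithmic Kodaira dimension of `X` is `-∞`;
* the logarithmic canonical divisor of `X` is not pseudo-effective;
* `X` is `A¹`-uniruled;
* there is a monomial place with a centre on `X` which is trivial on `F` and at which one of the
  `t i` is not a unit; in other words, the generic fibre of `X → Y` contains a toric divisor.
-/

open FF IntermediateField Pool.Agent.W602.GT

namespace Pool.Agent.Results.MP_410da7_ag.TorusFibrations

open Pool.Agent.V8H92.TB Pool.Agent.W619.PL

/-- **Q1 for torus fibrations** over varieties of logarithmic Kodaira dimension at least `0`. -/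
theorem result {k K : Type} [Field k] [CharZero k] [IsAlgClosed k] [Field K] [Algebra k K]
    {F : IntermediateField k K} (hess : Algebra.EssFiniteType k F) {d : ℕ}
    (htr : Algebra.trdeg k F = d) {n : ℕ} {t : Fin n → K} (ht : AlgebraicIndependent F t)
    (htop : IntermediateField.adjoin F (Set.range t) = ⊤) {Bd : Place k K → Prop}
    (hgen : ∀ v : Place k K, (∀ f : F, v.ord (f : K) = 0) → (∀ i, v.ord (t i) = 0) → ¬ Bd v)
    {BdF : Place k F → Prop}
    (hmor : ∀ v : Place k K, ¬ Bd v → ∀ (c : Place k F) (e : ℕ), Over v c e → ¬ BdF c)
    (hF : KodGe k F d BdF 0) :
    [¬ KodGe k K (n + d) Bd 0, ¬ Psef k K (n + d) Bd, IsA1Uniruled k K (n + d) Bd,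
      ∃ v : Place k K, ¬ Bd v ∧ MonoPl F t v ∧ (∀ f : F, v.ord (f : K) = 0) ∧
        ∃ i, v.ord (t i) ≠ 0].TFAE :=
  tfae_base htr ht htop hgen hmor hF

end Pool.Agent.Results.MP_410da7_ag.TorusFibrations
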