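import Pool.Agent.V8H90.VG.Uni2

/-!
# Logarithmic Kodaira dimension and `A¹`-uniruledness of torus fibrations over orbifold
subvarieties of projective varieties with very general hypersurfaces

Let `k` be a subfield of `ℂ` (for example a countable one), and let `V` be a closed subset of the
projective space of dimension `n`, defined over `k`, of dimension at most `r`. Let `H a`, for `a` in
a finite set `A`, be forms of degrees `d a` in `n + 1` variables over `ℂ`, which are very general
with respect to `k` (`VeryGeneral`): the ratios of the coefficients of `H a` to one of them are, for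
all `a` together, algebraically independent over `k`. Let `C` be a subset of `A`; the form `H c = 0`,
`c ∈ C`, give equations, and the other forms give the boundary. Let `m a ≥ 1` be natural numbers. For
example, `V` is the projective space, and `C = ∅`.

Let `X` be a complex variety with function field `K`, and let `Bd` be the set of the places of `K`
without centre on `X`. Let `b` be the vector of homogeneous coordinates, in `K`, of a rational map
from `X` to `V ∩ {H c = 0, c ∈ C}`, with image in no `H a = 0` with `a ∉ C`. For a place `P`, the
multiplicity in `H a = 0` is the order at `P` of `H a (b)` minus `d a` times the least order of the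
coordinates of `b` (`mult`). We suppose that `b` is an orbifold map: at each divisorial place with
centre on `X`, the multiplicities are all zero, or the sum of their quotients by the `m a` is at
least one (`OrbifoldMap`); for example, each nonzero multiplicity in `H a = 0` is at least `m a`.

Let `p ≥ 1` be the dimension of the image of `b`, and let `F` be the algebraic closure in `K` of the
function field of the image (that is, a subfield `F` of `K` of transcendence degree `p` which
contains the quotients of the coordinates of `b`, and which is algebraic over the field generated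
by them, and such that `K = F (t)` with `t = (t 1, …, t s)` algebraically independent over `F`).
The hypothesis `hgen` says that the generic fibre, the fibre of `X` over `F`, contains the torus with
the coordinates `t i`; it is an open subset of this fibre, since `K = F (t)`. Nothing else is assumed
on `X`. If `s = 0`, then the hypotheses on `t` say that `X` is generically finite over the image.

**Theorem.** Suppose that `2 r + 1 - p < ∑_{c ∈ C} (d c + 1) + ∑_{a ∉ C} d a (1 - 1 / m a)`. Then the
following are equivalent:

* the logarithmic Kodaira dimension of `X` is `-∞`;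
* the logarithmic canonical divisor of `X` is not pseudo-effective;
* `X` is `A¹`-uniruled;
* the generic fibre contains a toric divisor: a place `v` with centre on `X`, trivial on `F`, which
  is monomial (`MonoPl F t v`: the order of a polynomial in the `t i` over `F` is the minimum of the
  orders of its terms), and at which one of the `t i` is not a unit.

If they do not hold, then the logarithmic Kodaira dimension of `X` is at least `p`.

For `s = 0`, this is close to the starting file `RamifiedCovers` of MP_e52354_nt (varieties with
generically finite maps, ramified over the hypersurfaces, are of general type). For `s > 0`, the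
multiplicities can come from multiple fibres: the base of the fibration is an orbifold, and it may
be a rational variety.
-/

set_option autoImplicit false

open MvPolynomial FF Pool.Agent.W603.LV Pool.Agent.W603.PV Pool.Agent.W602.GT

namespace Pool.Agent.Results.MP_410da7_ag.VeryGeneralTorusFibrations

open Pool.Agent.V8H92.TB (MonoPl)
open Pool.Agent.W619.PL (IsA1Uniruled)
open Pool.Agent.TH145.MG (DimLE)

section defs

variable {n : ℕ} {A : Type}

/-- The forms `H a` of degrees `d a` are very general with respect to `k`: the ratios of the
coefficients of `H a` to one of them are, for all `a` together, algebraically independent over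
`k`. -/
def VeryGeneral (k : Type) [Field k] [Algebra k ℂ] (H : A → MvPolynomial (Fin (n + 1)) ℂ)
    (d : A → ℕ) : Prop :=
  (∀ a, (H a).IsHomogeneous (d a)) ∧ ∃ I0 : ∀ a, {I : Fin (n + 1) →₀ ℕ // I.degree = d a},
    (∀ a, (H a).coeff (I0 a).1 ≠ 0) ∧ AlgebraicIndependent k
      fun p : (a : A) × {I : {I : Fin (n + 1) →₀ ℕ // I.degree = d a} // I ≠ I0 a} =>
        (H p.1).coeff p.2.1.1 / (H p.1).coeff (I0 p.1).1

variable {K : Type} [Field K] [Algebra ℂ K]

/-- The multiplicity of the place `P` in the hypersurface `H a = 0`, at the point `b`. -/
noncomputable def mult (H : A → MvPolynomial (Fin (n + 1)) ℂ) (d : A → ℕ) (b : Fin (n + 1) → K)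
    (P : Place ℂ K) (a : A) : ℤ :=
  P.ord (aeval b (H a)) - d a * pord P b

/-- `b` is an orbifold map from `X` to `V ∩ {H c = 0, c ∈ C}` with the multiplicities `m a` on
`H a = 0`, `a ∉ C`; here `N` is the dimension of `X`, and `Bd` is the set of the places without
centre on `X`. -/
def OrbifoldMap [Fintype A] [DecidableEq A] {k : Type} [Field k] [Algebra k ℂ]
    (V : Set (MvPolynomial (Fin (n + 1)) k)) (H : A → MvPolynomial (Fin (n + 1)) ℂ) (d m : A → ℕ)
    (C : Finset A) (N : ℕ) (Bd : Place ℂ K → Prop) (b : Fin (n + 1) → K) : Prop :=
  b ≠ 0 ∧ (∀ f ∈ V, aeval b (map (algebraMap k ℂ) f) = 0) ∧ (∀ c ∈ C, aeval b (H c) = 0) ∧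
    (∀ a, a ∉ C → aeval b (H a) ≠ 0) ∧ ∀ P : Place ℂ K, Divisorial N P → ¬ Bd P →
      (∀ a, a ∉ C → mult H d b P a = 0) ∨ (1 : ℚ) ≤ ∑ a ∈ Cᶜ, (mult H d b P a : ℚ) / m a

/-- The function field of the image of the rational map `b`. -/
noncomputable def ImageField (b : Fin (n + 1) → K) : IntermediateField ℂ K :=
  IntermediateField.adjoin ℂ {f : K | ∃ i j, b j ≠ 0 ∧ f = b i / b j}

end defs

theorem result {k : Type} [Field k] [Algebra k ℂ] {n r : ℕ}
    -- a closed subset of projective space, of dimension at most `r`
    {V : Set (MvPolynomial (Fin (n + 1)) k)} (hVh : ∀ f ∈ V, ∃ e, f.IsHomogeneous e)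
    (hV : DimLE k V r)
    -- very general forms
    {A : Type} [Fintype A] [DecidableEq A] {d : A → ℕ} {H : A → MvPolynomial (Fin (n + 1)) ℂ}
    (hH : VeryGeneral k H d) {C : Finset A} {m : A → ℕ} (hm : ∀ a, 1 ≤ m a)
    -- the inequality for the degrees
    {p s : ℕ} (hp : 0 < p)
    (hT : (2 * r + 1 - p : ℚ) < ∑ c ∈ C, ((d c : ℚ) + 1) + ∑ a ∈ Cᶜ, (d a : ℚ) * (1 - 1 / m a))
    -- the variety `X` and the orbifold map
    {K : Type} [Field K] [Algebra ℂ K] (hK : Algebra.EssFiniteType ℂ K) {Bd : Place ℂ K → Prop}
    {b : Fin (n + 1) → K} (hb : OrbifoldMap V H d m C (s + p) Bd b)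
    -- the algebraic closure of the function field of the image
    {F : IntermediateField ℂ K} (hF : Algebra.trdeg ℂ F = p) (hbF : ImageField b ≤ F)
    (halg : ∀ f ∈ F, IsAlgebraic (ImageField b) f)
    -- the torus in the generic fibre
    {t : Fin s → K} (ht : AlgebraicIndependent F t)
    (htop : IntermediateField.adjoin F (Set.range t) = ⊤)
    (hgen : ∀ v : Place ℂ K, (∀ f : F, v.ord (f : K) = 0) → (∀ i, v.ord (t i) = 0) → ¬ Bd v) :
    [¬ KodGe ℂ K (s + p) Bd 0, ¬ Psef ℂ K (s + p) Bd, IsA1Uniruled ℂ K (s + p) Bd,
      ∃ v : Place ℂ K, ¬ Bd v ∧ MonoPl F t v ∧ (∀ f : F, v.ord (f : K) = 0) ∧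
        ∃ i, v.ord (t i) ≠ 0].TFAE ∧
    ((¬ ∃ v : Place ℂ K, ¬ Bd v ∧ MonoPl F t v ∧ (∀ f : F, v.ord (f : K) = 0) ∧
        ∃ i, v.ord (t i) ≠ 0) → KodGe ℂ K (s + p) Bd p) := by
  obtain ⟨hb0, hbV, hbC, hbn, hmul⟩ := hb
  obtain ⟨j0, hj0⟩ : ∃ j, b j ≠ 0 := by
    by_contra hcon
    push Not at hcon
    exact hb0 (funext hcon)
  exact Pool.Agent.V8H90.VG.tfae_gen hK hH hVh hV hp hF hj0
    (fun j => hbF (IntermediateField.subset_adjoin _ _ ⟨j, j0, hj0, rfl⟩)) halg hbV hbC hbn hm
    (by linarith) ht htop hgen hmul

end Pool.Agent.Results.MP_410da7_ag.VeryGeneralTorusFibrations
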